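import Pool.Agent.Helper55.GradedFinal

/-!
# Labelled graded orders with a fixed number `k ≥ 5` of grade levels

For every fixed `k ≥ 5` we prove `log₂ a_k(n) = n²/4 + (1 - (k - 5)/2) n + O(log n)`, where `a_k(n)` is the
number of partial orders on an `n`-element set that are graded with exactly `k` grade levels.

Upper bound. An order is determined by its levels and its covers, which join consecutive levels.
Unless the level sizes give at most `n²/4 - 2 k n` pairs, all but a bounded number of elements are in
four consecutive levels of sizes `a, b, c, d`, and if `p` and `q` are the numbers of elements in levels of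
the two parities, the number of pairs in consecutive levels is at most
`p q - y p - z q - (a - 1)(d - 1) + O(1)` with `y + z = k - 4`. The sum over all possibilities is then
estimated by binomial sums.

Lower bound. Levels of sizes `1, *, m, *, 1, …, 1` with `m` about `n / 2`.
-/

set_option autoImplicit false

open Pool.Agent.Helper55.Graded in
/-- For every `k ≥ 5`, `log₂ a_k(n) = n²/4 + (1 - (k - 5)/2) n + O(log n)` as `n → ∞`. -/
theorem Pool.Agent.Results.MP_ac85ec_co.FixedLevels.result : ∀ k : ℕ, 5 ≤ k →
    (fun n : ℕ => Real.logb 2 (a k n) - ((n : ℝ) ^ 2 / 4 + (1 - ((k : ℝ) - 5) / 2) * n))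
      =O[Filter.atTop] (fun n : ℕ => Real.log n) :=
  main
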